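import Pool.Agent.Helper23_LAP.Stmts

/-! LAP, module THU (helper59): upper tail for a random thinning, from TUP. -/

set_option autoImplicit false

namespace Pool.Agent.LAP.H59

open scoped Classical
open Pool.Agent.LAP

variable {U S : Type} [Fintype U] [Fintype S] [Nonempty S]

/-- the mean of a function of one coordinate -/
theorem ex_coord (u : U) (h : S → ℝ) :
    ex (fun ω : U → S => h (ω u)) = (∑ s, h s) / (Fintype.card S : ℝ) := by
  unfold ex
  have h1 : ∑ ω : U → S, h (ω u) =
      (∑ s, h s) * (Fintype.card ({j : U // j ≠ u} → S) : ℝ) := by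
    rw [← Equiv.sum_comp (Equiv.funSplitAt u S).symm (fun ω : U → S => h (ω u)),
      Fintype.sum_prod_type, Finset.sum_mul]
    refine Finset.sum_congr rfl fun s _ => ?_
    have h2 : ∀ y : {j : U // j ≠ u} → S, (Equiv.funSplitAt u S).symm (s, y) u = s := by
      intro y
      simp [Equiv.funSplitAt]
    simp only [h2, Finset.sum_const, Finset.card_univ, nsmul_eq_mul]
    ring
  have h3 : (Fintype.card (U → S) : ℝ) =
      (Fintype.card S : ℝ) * (Fintype.card ({j : U // j ≠ u} → S) : ℝ) := by
    rw [Fintype.card_congr (Equiv.funSplitAt u S), Fintype.card_prod]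
    push_cast
    ring
  have h4 : (Fintype.card ({j : U // j ≠ u} → S) : ℝ) ≠ 0 := by
    have : 0 < Fintype.card ({j : U // j ≠ u} → S) := Fintype.card_pos
    exact_mod_cast this.ne'
  have h5 : (Fintype.card S : ℝ) ≠ 0 := by
    have : 0 < Fintype.card S := Fintype.card_pos
    exact_mod_cast this.ne'
  rw [h1, h3]
  field_simp

/-- the mean of the thinned weight -/
theorem ex_thin (u : U) (w : ℝ) (g : Finset S) :
    ex (fun ω : U → S => if ω u ∈ g then w else 0) =
      w * ((g.card : ℝ) / (Fintype.card S : ℝ)) := by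
  rw [ex_coord u (fun s => if s ∈ g then w else 0), Finset.sum_ite_mem, Finset.univ_inter,
    Finset.sum_const, nsmul_eq_mul]
  ring

/-- module THU -/
theorem thu (htup : TUPStmt) : THUStmt := by
  intro U S _ _ _ I w g b e t μ hb he he1 hw hμ
  refine htup U S U I (fun u ω => if ω u ∈ g u then w u else 0) (fun u => {u}) b e t μ hb he he1
    ?_ ?_ ?_ ?_
  · intro u hu ω
    obtain ⟨h0, h1⟩ := hw u hu
    split_ifs
    · exact ⟨h0, h1⟩
    · exact ⟨le_rfl, hb.le⟩
  · intro u _ ω ω' h
    have h1 := h u (Finset.mem_singleton_self u)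
    dsimp only
    rw [h1]
  · intro i _ j _ hij
    exact Finset.disjoint_singleton.mpr hij
  · refine le_trans (le_of_eq (Finset.sum_congr rfl fun u _ => ?_)) hμ
    exact ex_thin u (w u) (g u)

end Pool.Agent.LAP.H59
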